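import Mathlib
import Pool.Agent.U514.SP.Stm

/-!
# Project SP, package BASE: trilinear aggregation
-/

set_option autoImplicit false

namespace Pool.Agent.U283.SP.BASE

open Finset
open Pool.Agent.U514.SP

variable {F I : Type} [Field F] [Fintype I] [DecidableEq I]

/-- row / column indices -/
abbrev XX (I : Type) : Type := Fin 2 × I

/-- the products -/
abbrev TT (I : Type) : Type :=
  (Fin 2 × Fin 2) × ((I × I × I) ⊕ (I × I) ⊕ (I × I) ⊕ (I × I))

/-- the left forms -/
def fa (A : XX I → XX I → F) : TT I → F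
  | (b, .inl (i, j, k)) => A (0, i) (b.1, j) + A (1, j) (b.1, k)
  | (b, .inr (.inl (i, k))) => ∑ j, A (0, i) (b.1, j) + ∑ j, A (1, j) (b.1, k)
  | (b, .inr (.inr (.inl (j, k)))) => A (1, j) (b.1, k)
  | (b, .inr (.inr (.inr (i, j)))) => A (0, i) (b.1, j)

/-- the right forms -/
def fb (B : XX I → XX I → F) : TT I → F
  | (b, .inl (i, j, k)) => B (b.1, j) (b.2, k) + B (b.1, k) (b.2, i)
  | (b, .inr (.inl (i, k))) => B (b.1, k) (b.2, i)
  | (b, .inr (.inr (.inl (j, k)))) => B (b.1, j) (b.2, k)
  | (b, .inr (.inr (.inr (i, j)))) => ∑ k, B (b.1, j) (b.2, k) + ∑ k, B (b.1, k) (b.2, i)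

/-- the coefficients of the products in the entries -/
def fc : TT I → XX I → XX I → F
  | (b, .inl (i, j, k)), x, z =>
      if b.2 = z.1 then
        (if x.1 = 0 then (if i = x.2 then (if k = z.2 then 1 else 0) else 0)
        else (if j = x.2 then (if i = z.2 then 1 else 0) else 0))
      else 0
  | (b, .inr (.inl (i, k))), x, z =>
      if b.2 = z.1 then
        (if x.1 = 0 then (if i = x.2 then (if k = z.2 then -1 else 0) else 0) else 0)
      else 0
  | (b, .inr (.inr (.inl (j, k)))), x, z =>
      if b.2 = z.1 then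
        (if x.1 = 0 then (if k = z.2 then -1 else 0) else (if j = x.2 then -1 else 0))
      else 0
  | (b, .inr (.inr (.inr (i, j)))), x, z =>
      if b.2 = z.1 then
        (if x.1 = 0 then 0 else (if j = x.2 then (if i = z.2 then -1 else 0) else 0))
      else 0

/-- the products compute the product of matrices -/
theorem main_id (A B : XX I → XX I → F) (x z : XX I) :
    ∑ τ, fc τ x z * fa A τ * fb B τ = ∑ y, A x y * B y z := by
  obtain ⟨α, i0⟩ := x
  obtain ⟨γ, k0⟩ := z
  rw [Fintype.sum_prod_type, Fintype.sum_prod_type, Fintype.sum_prod_type]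
  refine Finset.sum_congr rfl fun β _ => ?_
  rw [Finset.sum_eq_single γ]
  · simp only [Fintype.sum_sum_type, Fintype.sum_prod_type, fc, fa, fb, if_true]
    fin_cases α
    · simp only [Fin.zero_eta, Fin.isValue, if_true, ite_mul, one_mul, zero_mul, neg_mul,
        Finset.sum_const_zero, add_zero, Finset.sum_ite_eq', Finset.mem_univ, Finset.sum_ite_irrel]
      simp only [Finset.sum_add_distrib, Finset.sum_neg_distrib, add_mul, mul_add,
        Finset.sum_mul]
      ring
    · simp only [Fin.mk_one, Fin.isValue, one_ne_zero, if_false, ite_mul, one_mul, zero_mul,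
        neg_mul, Finset.sum_const_zero, zero_add, Finset.sum_ite_eq', Finset.mem_univ,
        if_true, Finset.sum_ite_irrel]
      simp only [Finset.sum_add_distrib, Finset.sum_neg_distrib, add_mul, mul_add,
        Finset.mul_sum]
      ring
  · intro b _ hb
    apply Finset.sum_eq_zero
    intro t _
    obtain ⟨i, j, k⟩ | ⟨i, k⟩ | ⟨j, k⟩ | ⟨i, j⟩ := t <;> simp [fc, hb]
  · intro h
    exact absurd (Finset.mem_univ γ) h

/-- elementary matrices -/
def E (x1 y1 : XX I) (x y : XX I) : F := if x1 = x ∧ y1 = y then 1 else 0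

theorem isAlg : IsAlg (F := F) (X := XX I) (T := TT I) (fun τ x1 y1 => fa (E x1 y1) τ)
    (fun τ y2 z2 => fb (E y2 z2) τ) fc := by
  intro x z x1 y1 y2 z2
  rw [main_id]
  rw [Finset.sum_eq_single y1]
  · unfold E
    by_cases h1 : x1 = x <;> by_cases h2 : y1 = y2 <;> by_cases h3 : z2 = z <;>
      simp [h1, h2, h3]
    · exact fun h => absurd h.symm h2
  · intro y _ hy
    unfold E
    rw [if_neg (fun h => hy h.2.symm), zero_mul]
  · intro h
    exact absurd (Finset.mem_univ y1) h

omit [DecidableEq I] in
theorem nnz_le {f : XX I → XX I → F} (S : Finset (XX I × XX I))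
    (h : ∀ x y, f x y ≠ 0 → (x, y) ∈ S) : nnz f ≤ S.card := by
  classical
  unfold nnz
  apply Finset.card_le_card
  rintro ⟨x, y⟩ hxy
  rw [Finset.mem_filter] at hxy
  exact h x y hxy.2

omit [Fintype I] in
theorem E_ne {x1 y1 x y : XX I} (h : E (F := F) x1 y1 x y ≠ 0) : (x1, y1) = (x, y) := by
  unfold E at h
  by_cases h1 : x1 = x ∧ y1 = y
  · rw [h1.1, h1.2]
  · rw [if_neg h1] at h
    exact absurd rfl h

/-- weights -/
noncomputable def wt (q : ℝ) : TT I → ℝ
  | (_, .inl _) => 3 / 2
  | (_, .inr (.inl _)) => q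
  | (_, .inr (.inr (.inl _))) => 1
  | (_, .inr (.inr (.inr _))) => q

/-- bounds for the numbers of nonzero coefficients -/
def na : TT I → ℕ
  | (_, .inl _) => 2
  | (_, .inr (.inl _)) => 2 * Fintype.card I
  | (_, .inr (.inr (.inl _))) => 1
  | (_, .inr (.inr (.inr _))) => 1

/-- bounds for the numbers of nonzero coefficients -/
def nb : TT I → ℕ
  | (_, .inl _) => 2
  | (_, .inr (.inl _)) => 1
  | (_, .inr (.inr (.inl _))) => 1
  | (_, .inr (.inr (.inr _))) => 2 * Fintype.card I

theorem nnz_a (τ : TT I) : nnz (fun x1 y1 => fa (F := F) (E x1 y1) τ) ≤ na τ := by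
  obtain ⟨b, ⟨i, j, k⟩ | ⟨i, k⟩ | ⟨j, k⟩ | ⟨i, j⟩⟩ := τ
  · have h := nnz_le (F := F) (f := fun x1 y1 => fa (E x1 y1) (b, .inl (i, j, k)))
      {((0, i), (b.1, j)), ((1, j), (b.1, k))} (by
        intro x y hxy
        rw [Finset.mem_insert, Finset.mem_singleton]
        by_contra hc
        push Not at hc
        apply hxy
        simp only [fa]
        have h1 : E (F := F) x y (0, i) (b.1, j) = 0 := by
          by_contra h2
          exact hc.1 (E_ne h2)
        have h2 : E (F := F) x y (1, j) (b.1, k) = 0 := by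
          by_contra h2
          exact hc.2 (E_ne h2)
        rw [h1, h2, add_zero])
    have h2 := h.trans Finset.card_le_two
    exact h2
  · have h := nnz_le (F := F) (f := fun x1 y1 => fa (E x1 y1) (b, .inr (.inl (i, k))))
      ((univ.image fun j : I => (((0 : Fin 2), i), (b.1, j))) ∪
        (univ.image fun j : I => (((1 : Fin 2), j), (b.1, k)))) (by
        intro x y hxy
        rw [Finset.mem_union, Finset.mem_image, Finset.mem_image]
        by_contra hc
        push Not at hc
        apply hxy
        simp only [fa]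
        have h1 : ∀ j, E (F := F) x y (0, i) (b.1, j) = 0 := by
          intro j
          by_contra h2
          exact hc.1 j (mem_univ _) (E_ne h2).symm
        have h2 : ∀ j, E (F := F) x y (1, j) (b.1, k) = 0 := by
          intro j
          by_contra h2
          exact hc.2 j (mem_univ _) (E_ne h2).symm
        rw [Finset.sum_eq_zero fun j _ => h1 j, Finset.sum_eq_zero fun j _ => h2 j, add_zero])
    have h2 : nnz (fun x1 y1 => fa (F := F) (E x1 y1) (b, .inr (.inl (i, k)))) ≤
        2 * Fintype.card I := by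
      refine h.trans ((Finset.card_union_le _ _).trans ?_)
      have h3 := (Finset.card_image_le (s := (univ : Finset I))
        (f := fun j : I => (((0 : Fin 2), i), (b.1, j))))
      have h4 := (Finset.card_image_le (s := (univ : Finset I))
        (f := fun j : I => (((1 : Fin 2), j), (b.1, k))))
      rw [Finset.card_univ] at h3 h4
      omega
    exact h2
  · have h := nnz_le (F := F) (f := fun x1 y1 => fa (E x1 y1) (b, .inr (.inr (.inl (j, k)))))
      {((1, j), (b.1, k))} (by
        intro x y hxy
        rw [Finset.mem_singleton]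
        exact E_ne hxy)
    rw [Finset.card_singleton] at h
    exact h
  · have h := nnz_le (F := F) (f := fun x1 y1 => fa (E x1 y1) (b, .inr (.inr (.inr (i, j)))))
      {((0, i), (b.1, j))} (by
        intro x y hxy
        rw [Finset.mem_singleton]
        exact E_ne hxy)
    rw [Finset.card_singleton] at h
    exact h

theorem nnz_b (τ : TT I) : nnz (fun x1 y1 => fb (F := F) (E x1 y1) τ) ≤ nb τ := by
  obtain ⟨b, ⟨i, j, k⟩ | ⟨i, k⟩ | ⟨j, k⟩ | ⟨i, j⟩⟩ := τ
  · have h := nnz_le (F := F) (f := fun x1 y1 => fb (E x1 y1) (b, .inl (i, j, k)))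
      {((b.1, j), (b.2, k)), ((b.1, k), (b.2, i))} (by
        intro x y hxy
        rw [Finset.mem_insert, Finset.mem_singleton]
        by_contra hc
        push Not at hc
        apply hxy
        simp only [fb]
        have h1 : E (F := F) x y (b.1, j) (b.2, k) = 0 := by
          by_contra h2
          exact hc.1 (E_ne h2)
        have h2 : E (F := F) x y (b.1, k) (b.2, i) = 0 := by
          by_contra h2
          exact hc.2 (E_ne h2)
        rw [h1, h2, add_zero])
    have h2 := h.trans Finset.card_le_two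
    exact h2
  · have h := nnz_le (F := F) (f := fun x1 y1 => fb (E x1 y1) (b, .inr (.inl (i, k))))
      {((b.1, k), (b.2, i))} (by
        intro x y hxy
        rw [Finset.mem_singleton]
        exact E_ne hxy)
    rw [Finset.card_singleton] at h
    exact h
  · have h := nnz_le (F := F) (f := fun x1 y1 => fb (E x1 y1) (b, .inr (.inr (.inl (j, k)))))
      {((b.1, j), (b.2, k))} (by
        intro x y hxy
        rw [Finset.mem_singleton]
        exact E_ne hxy)
    rw [Finset.card_singleton] at h
    exact h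
  · have h := nnz_le (F := F) (f := fun x1 y1 => fb (E x1 y1) (b, .inr (.inr (.inr (i, j)))))
      ((univ.image fun k : I => ((b.1, j), (b.2, k))) ∪
        (univ.image fun k : I => ((b.1, k), (b.2, i)))) (by
        intro x y hxy
        rw [Finset.mem_union, Finset.mem_image, Finset.mem_image]
        by_contra hc
        push Not at hc
        apply hxy
        simp only [fb]
        have h1 : ∀ k, E (F := F) x y (b.1, j) (b.2, k) = 0 := by
          intro k
          by_contra h2
          exact hc.1 k (mem_univ _) (E_ne h2).symm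
        have h2 : ∀ k, E (F := F) x y (b.1, k) (b.2, i) = 0 := by
          intro k
          by_contra h2
          exact hc.2 k (mem_univ _) (E_ne h2).symm
        rw [Finset.sum_eq_zero fun k _ => h1 k, Finset.sum_eq_zero fun k _ => h2 k, add_zero])
    have h2 : nnz (fun x1 y1 => fb (F := F) (E x1 y1) (b, .inr (.inr (.inr (i, j))))) ≤
        2 * Fintype.card I := by
      refine h.trans ((Finset.card_union_le _ _).trans ?_)
      have h3 := (Finset.card_image_le (s := (univ : Finset I))
        (f := fun k : I => ((b.1, j), (b.2, k))))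
      have h4 := (Finset.card_image_le (s := (univ : Finset I))
        (f := fun k : I => ((b.1, k), (b.2, i))))
      rw [Finset.card_univ] at h3 h4
      omega
    exact h2

omit [DecidableEq I] in
theorem sum_wt (q : ℝ) : ∑ τ : TT I, wt q τ =
    4 * ((Fintype.card I : ℝ) ^ 3 * (3 / 2) + (Fintype.card I : ℝ) ^ 2 * (2 * q + 1)) := by
  rw [Fintype.sum_prod_type]
  simp only [Fintype.sum_sum_type, wt, Finset.sum_const, Finset.card_univ, Fintype.card_prod,
    nsmul_eq_mul, Fintype.card_fin]
  push_cast
  ring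

theorem t_BASE : S_BASE := by
  intro F _
  refine ⟨fun τ x1 y1 => fa (E x1 y1) τ, fun τ y2 z2 => fb (E y2 z2) τ, fc, wt 16, isAlg,
    ?_, ?_, ?_, ?_⟩
  · intro τ
    refine (Nat.cast_le.2 (nnz_a (F := F) τ)).trans ?_
    obtain ⟨b, ⟨i, j, k⟩ | ⟨i, k⟩ | ⟨j, k⟩ | ⟨i, j⟩⟩ := τ <;>
      simp only [wt, na, nb, Fintype.card_fin] <;> norm_num
  · intro τ
    refine (Nat.cast_le.2 (nnz_b (F := F) τ)).trans ?_
    obtain ⟨b, ⟨i, j, k⟩ | ⟨i, k⟩ | ⟨j, k⟩ | ⟨i, j⟩⟩ := τ <;>
      simp only [wt, na, nb, Fintype.card_fin] <;> norm_num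
  · intro τ
    obtain ⟨b, ⟨i, j, k⟩ | ⟨i, k⟩ | ⟨j, k⟩ | ⟨i, j⟩⟩ := τ <;>
      simp only [wt] <;> norm_num
  · have h := sum_wt (I := Fin 128) 16
    rw [Fintype.card_fin] at h
    have h2 : ∑ τ : T₀, wt (I := Fin 128) 16 τ = 14745600 := by
      rw [show (∑ τ : T₀, wt (I := Fin 128) 16 τ) = ∑ τ : TT (Fin 128), wt 16 τ from rfl, h]
      norm_num
    rw [h2]
    norm_num

end Pool.Agent.U283.SP.BASE
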